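import Pool.Agent.Helper72_OPH.Final
import Pool.Agent.Helper72_SQ.TwoAll

/-!
# Odd integers with an odd number of prime factors between consecutive odd squares

There are `c > 0` and `C` such that for every integer `k ≥ 1` the open interval
`((2k-1)², (2k+1)²)`, which contains `4k - 1` odd integers, contains at least two, and at least
`c k / (log 2k)^C`, odd integers `n` with `Ω(n)` odd, where `Ω` (`ArithmeticFunction.cardFactors`)
counts prime factors with multiplicity. This is the parity form of the question whether the
interval contains at least two primes.

Proof idea. Let `f` be the Liouville function, `M = 2k`. Two neighbouring odd numbers `u`, `u + 2`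
near `M` have a common odd partner `v` with `u v` and `(u + 2) v` in the interval, unless `u` is a
cut; if `f u ≠ f (u + 2)` one of the two products is an odd `n` of the interval with `f n = -1`. In
the window `[M + A, M + 2A]`, `A = M / S`, the cuts have density `O(S^(-3/2))`. If there were few
exceptional `n`, then `f` would be constant on intervals of length much larger than `S` around
most points `Y` of the window, and the constants at `Y` and at `Y b' / b` would differ by the
factor `f(b) f(b')` for all odd `b, b'` up to `S (log M)^C`. A closed path of such ratios `b' / b`,
inside the window, of length and heights at most `(log M)^C`, along which the product of the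
factors is `f 3 = -1`, gives a contradiction. The path is made of ratios of products of small odd
numbers at all scales `1/M ≤ |log(ratio)| ≤ 1`, found from a solution of the
Prouhet-Tarry-Escott system (pigeonhole principle) and Lagrange extrapolation from the squares.
The number of divisors is controlled on average (Landreau's inequality).

Two such `n` for every `k`: if `2k ≥ 144000000` and there were at most one such `n`, all relations
`f u = f u'` given by common partners hold but one; in each of five ranges for the position of the
exceptional `n` in the interval the other relations, on runs of odd numbers near `2k` and multiples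
of small odd numbers, connect `f 79 = -1` with `f 81 = 1`. For the smaller `k` the kernel checks a
chain of pairs `c`, `c + 2` with `f c = 1`, `f (c + 2) = -1`; two pairs on the two sides of `2k`, at
distance at most the square root of `2c + 2`, give two such `n`.
-/

namespace Pool.Agent.Results.MP_5f6ee5_nt.Growth

/-- There are `c > 0` and `C` such that for every `k ≥ 1` at least two, and at least
`c k / (log 2k)^C`, odd `n` with `(2k-1)² < n < (2k+1)²` have an odd number `Ω(n)` of prime factors
(with multiplicity). -/
theorem result : ∃ (c : ℝ) (C : ℕ), 0 < c ∧ ∀ k : ℕ, 1 ≤ k →
    max 2 (c * (k : ℝ) / (Real.log (2 * k)) ^ C) ≤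
      (((Finset.Ioo ((2 * k - 1) ^ 2) ((2 * k + 1) ^ 2)).filter
        (fun n => Odd n ∧ Odd (ArithmeticFunction.cardFactors n))).card : ℝ) := by
  obtain ⟨c, C, hc, h⟩ := Pool.Agent.OPH.H72.re2Stmt
  refine ⟨c, C, hc, fun k hk => max_le ?_ (h k hk)⟩
  exact_mod_cast Pool.Agent.SQ.H72.two_card k hk

end Pool.Agent.Results.MP_5f6ee5_nt.Growth
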