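import Pool.Agent.Helper26_LGD.Final

/-!
# Integers with an odd number of prime factors between consecutive squares

There are `c > 0` and `C` such that for every integer `n ≥ 1` at least `c n / (log 2n)^C` of the `2n`
integers `m` with `n² < m < (n+1)²` have `Ω(m)` odd, where `Ω` (`ArithmeticFunction.cardFactors`) counts
prime factors with multiplicity. As `(2k-1)² < (2k)² < (2k+1)²`, this holds for each of the two halves
of the interval `((2k-1)², (2k+1)²)` of the question, for every `k`: it is the parity form of Legendre's
conjecture and of the two primes which it gives in the interval.

Proof idea. Let `f` be the Liouville function. Two neighbouring integers `u`, `u + 1` near `n` have a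
common partner `v` with `u v` and `(u + 1) v` strictly between `n²` and `(n+1)²`, unless `u` is a cut; if
`f u ≠ f (u + 1)` one of the two products is an `m` of the interval with `f m = -1`. In the window
`[n + A, n + 2A]`, `A = n / S`, the cuts have density `O(S^(-3/2))`. If there were few `m` with
`f m = -1`, then `f` would be constant on intervals of length much larger than `S` around most points
of the window, and the constants at `Y` and at `Y b' / b` would differ by the factor `f(b) f(b')` for
all `b, b'` up to `S (log n)^C`. A closed path of such ratios `b' / b`, inside the window, of length and
heights at most `(log n)^C`, along which the product of the factors is `f 2 = -1`, gives a contradiction.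
The path is found from a solution of the Prouhet-Tarry-Escott system (pigeonhole principle) and
Lagrange extrapolation from the squares. The number of divisors is controlled on average
(Landreau's inequality).
-/

namespace Pool.Agent.Results.MP_5f6ee5_nt.LegendreHalves

/-- There are `c > 0` and `C` such that for every `n ≥ 1` at least `c n / (log 2n)^C` integers `m` with
`n² < m < (n+1)²` have an odd number `Ω(m)` of prime factors (with multiplicity). -/
theorem result : ∃ (c : ℝ) (C : ℕ), 0 < c ∧ ∀ n : ℕ, 1 ≤ n →
    c * (n : ℝ) / (Real.log (2 * n)) ^ C ≤
      (((Finset.Ioo (n ^ 2) ((n + 1) ^ 2)).filter
        (fun m => Odd (ArithmeticFunction.cardFactors m))).card : ℝ) :=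
  Pool.Agent.LGD.H26.resStmt

end Pool.Agent.Results.MP_5f6ee5_nt.LegendreHalves
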