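import Pool.Agent.Helper18_MGP.Final
import Pool.Agent.Helper19_PAR.Main

set_option autoImplicit false

/-!
# MP_5f6ee5_nt: multiplicative relations between the odd integers between consecutive odd squares

For `k ≥ 10^45` every odd `n` with `(3000 n)^4 ≤ k^3` is a quotient of two products of equally many
odd integers of `I_k = ((2k-1)^2, (2k+1)^2)`. So a completely multiplicative function `f` on the odd
numbers, with values in any abelian group, which is constant on the odd integers of `I_k` satisfies
`f n = 1` for all odd `n ≤ k^(3/4) / 3000`. Modulo squares: for `k ≥ 3000000` every odd `n` with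
`n^2 ≤ 7k` is a product of distinct odd integers of `I_k` up to a square, and for `n = 3` this holds
for every `k ≥ 1` except `k = 2`.

Proof idea for the first part. Let `N = 2k`, `f = κ` on the odd integers of `I_k`. Two neighbouring
odd numbers `v`, `v + 2` near `N` have a common odd partner `u` with `u v`, `u (v + 2)` in `I_k`, so
`f v = f (v + 2)`, unless there is a cut between them; cuts only occur where the class
`floor ((v-N)^2 / (2v))` changes. Let there be a cut at `σ` and let `ra = t^2 - h^2`,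
`(r+2)(a-2) = t^2 - (h+2)^2` be two neighbouring products, one on each side of `σ`, `r = t + h`,
`a = t - h`. In the identity `f (ra) f ((r+20)(a+40)) = f ((r+20)a) f (r(a+40))` the three other
corners hardly move when `(r, a)` is replaced by `(r+2, a-2)`. For at least one of four scales of `h`
(`H`, `2H`, `4H`, `8H`, `H` about `sqrt 6 N^(1/4)`) they do not cross a change of the class, and then
`f (ra) = f ((r+2)(a-2))`: the cut is no jump of `f`. Hence `f` is constant on the odd numbers at
distance at most `N^(3/4) / 2500` from `N`. Multiples in this window give `f r = f (r + 2)` for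
`5000 N^(1/4) ≤ r ≤ N^(3/4) / 5000`, and then `f n = 1` for all odd `n ≤ N^(3/4) / 5000`.
-/

namespace Pool.Agent.Results.MP_5f6ee5_nt.MultiplicativeGroup

theorem result :
    -- every `k ≥ 10^45`: quotients of two products of equally many odd integers of the interval
    (∀ k : ℕ, 10 ^ 45 ≤ k → ∀ n : ℕ, Odd n → (3000 * n) ^ 4 ≤ k ^ 3 →
      ∃ A B : Multiset ℕ, A.card = B.card ∧
        (∀ m ∈ A, Odd m ∧ (2 * k - 1) ^ 2 < m ∧ m < (2 * k + 1) ^ 2) ∧
        (∀ m ∈ B, Odd m ∧ (2 * k - 1) ^ 2 < m ∧ m < (2 * k + 1) ^ 2) ∧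
        n * A.prod = B.prod) ∧
    -- modulo squares, every `k ≥ 3000000`
    (∀ k : ℕ, 3000000 ≤ k → ∀ n : ℕ, Odd n → n ^ 2 ≤ 7 * k →
      ∃ S : Finset ℕ, (∀ m ∈ S, Odd m ∧ (2 * k - 1) ^ 2 < m ∧ m < (2 * k + 1) ^ 2) ∧
        IsSquare (n * ∏ m ∈ S, m)) ∧
    -- modulo squares, `n = 3`, every `k ≥ 1`
    (∀ k : ℕ, 1 ≤ k →
      ((∃ S : Finset ℕ, (∀ m ∈ S, Odd m ∧ (2 * k - 1) ^ 2 < m ∧ m < (2 * k + 1) ^ 2) ∧
        IsSquare (3 * ∏ m ∈ S, m)) ↔ k ≠ 2)) := by
  refine ⟨Pool.Agent.MGP.H18.mainAll, Pool.Agent.PAR.squareP,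
    fun k hk => ⟨?_, Pool.Agent.PAR.square3 k hk⟩⟩
  rintro h rfl
  exact Pool.Agent.PAR.not2 h

end Pool.Agent.Results.MP_5f6ee5_nt.MultiplicativeGroup
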