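import Pool.Agent.Helper34_GW.Omega

/-!
# Multiplicative relations between the odd integers between consecutive odd squares

Let `I_k = ((2k-1)², (2k+1)²)`. There is a `C` such that for all `k ≥ C` and all odd `n₁` with
`(n₁ log k)^C ≤ k`: if `B` is any set of fewer than `k / (n₁ log k)^C` integers, then
`n₁ b₁ ⋯ b_r = a₁ ⋯ a_r` for some `r ≤ k (n₁ log k)^C` and odd integers `a_i, b_i` of `I_k` outside `B`
with at most `(n₁ log k)^C` divisors. So a completely multiplicative function `f` on the odd integers,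
with values in any abelian group, which has the same value `γ` at all odd integers of `I_k` with few
divisors, but for fewer than `k / (n₁ log k)^C` of them, has `f(n₁) = 1`. The same holds for all
integers of the intervals `(m², (m+1)²)` and every `n₁ ≥ 1`. For `f(n) = Ω(n) mod m` we get: at least
`k / (log k)^C` odd `n` of `I_k` with at most `(log k)^C` divisors and `Ω(n)` outside a given residue
class.

Proof idea. Let `G` be abelian with word lengths `W_0 ⊆ W_1 ⊆ …` and let `f` be completely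
multiplicative with `f(n)/γ ∈ W_1` for all `n` of the interval but few. Neighbouring odd numbers `u`,
`u + 2` in the window `[M + A, M + 2A]`, `M = 2k`, `A = M / S`, have a common odd partner `v` with
`u v` and `(u + 2) v` in the interval, but for few `u` (cuts), so `f(u)/f(u+2) ∈ W_2` but for few `u`.
Hence `f` is constant up to a word of length `O(Q)` on intervals of length `Q` around most points `Y`
of the window, `Q` a power of `n₁ log k`; for a closed path of odd ratios with small heights the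
product of the values of `f` is a word of length `Q^2`. For `j = 0, 1, 2, …` let `L_j` be a list of
ratios of small odd numbers with product `n₁^(1/2^j)` up to a factor `1 + O(1/M)`, `L_0 = (n₁)` and
`L_T` empty (`2^T` about `M log n₁`); the lists exist for all scales between `1/M` and `1` by solutions
of the Prouhet-Tarry-Escott system and Lagrange extrapolation from the squares. Closed paths
`L_(j+1), L_(j+1), L_j^(-1)` give `f(L_j) = f(L_(j+1))²` up to short words, so `f(n₁) = f(L_0)` is a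
word of length `2^T Q^2`. The number of divisors is controlled by the second moment of the number of
divisors in the interval (Landreau's inequality). The group of rational numbers with word lengths
over the quotients `a / b` of good elements gives the first part.
-/

namespace Pool.Agent.Results.MP_5f6ee5_nt.RobustGeneration

theorem result :
    (∃ C : ℕ, 1 ≤ C ∧
      -- odd integers between consecutive odd squares
      (∀ k n₁ : ℕ, C ≤ k → Odd n₁ → ((n₁ : ℝ) * Real.log k) ^ C ≤ k →
        (∀ B : Finset ℕ, ((n₁ : ℝ) * Real.log k) ^ C * B.card < k →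
          ∃ (r : ℕ) (a b : Fin r → ℕ), (r : ℝ) ≤ k * ((n₁ : ℝ) * Real.log k) ^ C ∧
            (∀ i, ((2 * k - 1) ^ 2 < a i ∧ a i < (2 * k + 1) ^ 2 ∧ Odd (a i) ∧ a i ∉ B ∧
                ((a i).divisors.card : ℝ) ≤ ((n₁ : ℝ) * Real.log k) ^ C) ∧
              ((2 * k - 1) ^ 2 < b i ∧ b i < (2 * k + 1) ^ 2 ∧ Odd (b i) ∧ b i ∉ B ∧
                ((b i).divisors.card : ℝ) ≤ ((n₁ : ℝ) * Real.log k) ^ C)) ∧
            n₁ * ∏ i, b i = ∏ i, a i) ∧
        ∀ (G : Type) [CommGroup G] (f : ℕ → G) (γ : G),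
          (∀ a b : ℕ, Odd a → Odd b → f (a * b) = f a * f b) → f n₁ ≠ 1 →
          (k : ℝ) ≤ ((n₁ : ℝ) * Real.log k) ^ C *
            (Set.ncard {n : ℕ | (2 * k - 1) ^ 2 < n ∧ n < (2 * k + 1) ^ 2 ∧ Odd n ∧ f n ≠ γ ∧
              (n.divisors.card : ℝ) ≤ ((n₁ : ℝ) * Real.log k) ^ C} : ℝ)) ∧
      -- all integers between consecutive squares
      (∀ m n₁ : ℕ, C ≤ m → 0 < n₁ → ((n₁ : ℝ) * Real.log m) ^ C ≤ m →
        (∀ B : Finset ℕ, ((n₁ : ℝ) * Real.log m) ^ C * B.card < m →
          ∃ (r : ℕ) (a b : Fin r → ℕ), (r : ℝ) ≤ m * ((n₁ : ℝ) * Real.log m) ^ C ∧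
            (∀ i, (m ^ 2 < a i ∧ a i < (m + 1) ^ 2 ∧ a i ∉ B ∧
                ((a i).divisors.card : ℝ) ≤ ((n₁ : ℝ) * Real.log m) ^ C) ∧
              (m ^ 2 < b i ∧ b i < (m + 1) ^ 2 ∧ b i ∉ B ∧
                ((b i).divisors.card : ℝ) ≤ ((n₁ : ℝ) * Real.log m) ^ C)) ∧
            n₁ * ∏ i, b i = ∏ i, a i) ∧
        ∀ (G : Type) [CommGroup G] (f : ℕ → G) (γ : G),
          (∀ a b : ℕ, 0 < a → 0 < b → f (a * b) = f a * f b) → f n₁ ≠ 1 →
          (m : ℝ) ≤ ((n₁ : ℝ) * Real.log m) ^ C *
            (Set.ncard {n : ℕ | m ^ 2 < n ∧ n < (m + 1) ^ 2 ∧ f n ≠ γ ∧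
              (n.divisors.card : ℝ) ≤ ((n₁ : ℝ) * Real.log m) ^ C} : ℝ))) ∧
    -- the number of prime factors modulo `m`
    (∃ C : ℕ, ∀ k m a : ℕ, C ≤ k → 2 ≤ m →
      (k : ℝ) ≤ Real.log k ^ C * (Set.ncard {n : ℕ | (2 * k - 1) ^ 2 < n ∧ n < (2 * k + 1) ^ 2 ∧
        Odd n ∧ ¬ (ArithmeticFunction.cardFactors n ≡ a [MOD m]) ∧
        (n.divisors.card : ℝ) ≤ Real.log k ^ C} : ℝ)) := by
  refine ⟨?_, Pool.Agent.Helper34_GW.omega_class⟩
  obtain ⟨C, h1, h2, h3⟩ := Pool.Agent.Helper34_GW.main
  exact ⟨C, h1, h2, fun m n₁ hm hn hb =>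
    Pool.Agent.Helper34_GW.all_form C m n₁ (h3 m n₁ hm hn hb)⟩

end Pool.Agent.Results.MP_5f6ee5_nt.RobustGeneration
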